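import Mathlib
import Pool.Agent.Q184.Cong.Geom

/-!
# The displacement constant `ln 2` for measurable paradoxes in the hyperbolic plane is optimal

The hyperbolic plane is Mathlib's upper half-plane with its hyperbolic distance, and `volume` is
the measure `dx dy / y²` on it.
-/

open MeasureTheory UpperHalfPlane Set

namespace Pool.Agent.Results.MP_9ed947_gt.NoLargerConstant

/-- The family `A` is a partition of `X` (into nonempty sets). -/
def IsPartition {ι : Type} (A : ι → Set ℍ) (X : Set ℍ) : Prop :=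
  (∀ i, (A i).Nonempty) ∧ (∀ i j, i ≠ j → Disjoint (A i) (A j)) ∧ ⋃ i, A i = X

/-- A paradoxical decomposition of `X` with measurable pieces: `A` and `B` are partitions of `X`
into `m ≥ 1` and `n ≥ 1` measurable pieces and the sets `ρᵢ(Aᵢ)`, `σⱼ(Bⱼ)` form a partition
of `X`. -/
structure MeasurableParadox (X : Set ℍ) (m n : ℕ) (ρ : Fin m → ℍ ≃ᵢ ℍ) (σ : Fin n → ℍ ≃ᵢ ℍ)
    (A : Fin m → Set ℍ) (B : Fin n → Set ℍ) : Prop where
  hm : 1 ≤ m
  hn : 1 ≤ n
  partA : IsPartition A X
  partB : IsPartition B X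
  measA : ∀ i, NullMeasurableSet (A i) volume
  measB : ∀ j, NullMeasurableSet (B j) volume
  images : IsPartition (Sum.elim (fun i => ρ i '' A i) (fun j => σ j '' B j)) X

/-- Property `(∗_c)`: for every measurable `X ⊆ ℍ²` with a paradoxical decomposition with
measurable pieces, either `X` is a null set or every point `P` is moved by at least `c` by some
isometry used in the decomposition. -/
def Star (c : ℝ) : Prop :=
  ∀ X : Set ℍ, NullMeasurableSet X volume →
    ∀ (m n : ℕ) (ρ : Fin m → ℍ ≃ᵢ ℍ) (σ : Fin n → ℍ ≃ᵢ ℍ) (A : Fin m → Set ℍ)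
      (B : Fin n → Set ℍ), MeasurableParadox X m n ρ σ A B →
      volume X = 0 ∨ ∀ P : ℍ, (∃ i, c ≤ dist P (ρ i P)) ∨ (∃ j, c ≤ dist P (σ j P))

/-- The isometry `z ↦ l z + d`. -/
noncomputable def aff (l d : ℝ) (hl : 0 < l) : ℍ ≃ᵢ ℍ :=
  Q184.Cong.isomOf (Matrix.GeneralLinearGroup.mkOfDetNeZero !![l, d; 0, 1] (by simp [hl.ne']))

theorem coe_aff (l d : ℝ) (hl : 0 < l) (z : ℍ) : ((aff l d hl z : ℍ) : ℂ) = l * z + d := by
  have hdet : 0 < (Matrix.GeneralLinearGroup.mkOfDetNeZero !![l, d; 0, 1]
      (by simp [hl.ne'])).det.val := by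
    rw [Matrix.GeneralLinearGroup.val_det_apply]
    change 0 < Matrix.det !![l, d; 0, 1]
    simp [hl]
  unfold aff
  rw [Q184.Cong.isomOf_apply, coe_smul_of_det_pos hdet]
  simp [num, denom, Matrix.GeneralLinearGroup.mkOfDetNeZero]

theorem re_aff (l d : ℝ) (hl : 0 < l) (z : ℍ) : (aff l d hl z).re = l * z.re + d := by
  have h := congrArg Complex.re (coe_aff l d hl z)
  simpa using h

theorem im_aff (l d : ℝ) (hl : 0 < l) (z : ℍ) : (aff l d hl z).im = l * z.im := by
  have h := congrArg Complex.im (coe_aff l d hl z)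
  simpa using h

theorem cosh_dist_I_aff (l d : ℝ) (hl : 0 < l) :
    Real.cosh (dist UpperHalfPlane.I (aff l d hl UpperHalfPlane.I)) =
      1 + (d ^ 2 + (1 - l) ^ 2) / (2 * l) := by
  rw [cosh_dist, im_aff, I_im, coe_aff, coe_I]
  congr 2
  · rw [Complex.dist_eq, ← Complex.normSq_eq_norm_sq, Complex.normSq_apply]
    simp
    ring
  · ring

theorem volume_ne_zero {U : Set ℍ} (hU : IsOpen U) (hne : U.Nonempty) :
    (volume : Measure ℍ) U ≠ 0 := by
  intro h0
  rw [volume_def] at h0
  have hmeas : Measurable fun z : ℍ => (((1 / NNReal.mk z.im z.im_pos.le) ^ 2 : NNReal) : ENNReal) := by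
    refine measurable_coe_nnreal_ennreal.comp ?_
    refine Measurable.pow_const (Measurable.const_div ?_ _) _
    exact (continuous_im.subtype_mk _).measurable
  have hac := withDensity_absolutelyContinuous' (μ := volume.comap UpperHalfPlane.coe)
    hmeas.aemeasurable (by
      refine Filter.Eventually.of_forall fun z => ?_
      rw [ENNReal.coe_ne_zero]
      refine pow_ne_zero _ (one_div_ne_zero ?_)
      intro h
      exact z.im_ne_zero (congrArg NNReal.toReal h))
  have h1 : (volume.comap UpperHalfPlane.coe) U = 0 := hac h0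
  rw [measurableEmbedding_coe.comap_apply] at h1
  have h2 : IsOpen (UpperHalfPlane.coe '' U) := isOpenEmbedding_coe.isOpenMap U hU
  exact (h2.measure_pos volume (hne.image _)).ne' h1

/-- There is no constant `c > ln 2` with property `(∗_c)`. -/
theorem result : ¬ ∃ c : ℝ, Real.log 2 < c ∧ Star c := by
  rintro ⟨c, hc, hstar⟩
  have hc0 : 0 < c := (Real.log_pos (by norm_num)).trans hc
  -- the contraction factor `1/L`, with `2 < L` and `ln L < c`
  obtain ⟨L, hL2, hLc⟩ : ∃ L : ℝ, 2 < L ∧ Real.log L < c := by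
    obtain ⟨t, ht1, ht2⟩ := exists_between hc
    refine ⟨Real.exp t, ?_, by rwa [Real.log_exp]⟩
    rwa [← Real.log_lt_iff_lt_exp (by norm_num)]
  have hL0 : 0 < L := by linarith
  set l : ℝ := L⁻¹ with hl
  have hl0 : 0 < l := inv_pos.mpr hL0
  have hl2 : l < 1 / 2 := by
    rw [hl, inv_eq_one_div]
    exact one_div_lt_one_div_of_lt (by norm_num) hL2
  -- the displacement `d`
  have hcosh : 1 + (1 - l) ^ 2 / (2 * l) < Real.cosh c := by
    have h1 : Real.cosh (Real.log L) = 1 + (1 - l) ^ 2 / (2 * l) := by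
      rw [Real.cosh_log hL0, hl]
      field_simp
      ring
    rw [← h1]
    refine Real.cosh_lt_cosh.mpr ?_
    rw [abs_of_pos (Real.log_pos (by linarith)), abs_of_pos hc0]
    exact hLc
  obtain ⟨d, hd0, hd⟩ : ∃ d : ℝ, 0 < d ∧ 1 + (d ^ 2 + (1 - l) ^ 2) / (2 * l) < Real.cosh c := by
    set κ := Real.cosh c - (1 + (1 - l) ^ 2 / (2 * l)) with hκ
    have hκ0 : 0 < κ := by rw [hκ]; linarith
    refine ⟨Real.sqrt (κ * l), Real.sqrt_pos.mpr (mul_pos hκ0 hl0), ?_⟩
    rw [Real.sq_sqrt (mul_pos hκ0 hl0).le]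
    have h1 : (κ * l + (1 - l) ^ 2) / (2 * l) = κ / 2 + (1 - l) ^ 2 / (2 * l) := by
      field_simp
    rw [h1]
    have h2 : Real.cosh c = κ + (1 + (1 - l) ^ 2 / (2 * l)) := by rw [hκ]; ring
    rw [h2]
    linarith
  -- the two isometries
  set a : ℍ ≃ᵢ ℍ := aff l (-d) hl0 with ha
  set b : ℍ ≃ᵢ ℍ := aff l d hl0 with hb
  have hdist : ∀ e : ℝ, e ^ 2 = d ^ 2 → dist UpperHalfPlane.I (aff l e hl0 UpperHalfPlane.I) < c := by
    intro e he
    have h1 : Real.cosh (dist UpperHalfPlane.I (aff l e hl0 UpperHalfPlane.I)) < Real.cosh c := by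
      rw [cosh_dist_I_aff, he]
      exact hd
    rw [Real.cosh_lt_cosh, abs_of_nonneg dist_nonneg, abs_of_pos hc0] at h1
    exact h1
  -- the strip
  set X : Set ℍ := {z | |z.re| < 2 * d} with hX
  have hXopen : IsOpen X := isOpen_lt (continuous_abs.comp continuous_re) continuous_const
  have hIX : UpperHalfPlane.I ∈ X := by
    change |UpperHalfPlane.I.re| < 2 * d
    rw [I_re, abs_zero]
    linarith
  have haX : ∀ z ∈ X, (a z).re < 0 ∧ a z ∈ X := by
    intro z hz
    have h1 : |z.re| < 2 * d := hz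
    obtain ⟨h2, h3⟩ := abs_lt.mp h1
    have h4 : (a z).re = l * z.re + -d := re_aff _ _ _ _
    have h5 : l * z.re < d := by nlinarith
    have h6 : -d < l * z.re := by nlinarith
    refine ⟨by rw [h4]; linarith, ?_⟩
    change |(a z).re| < 2 * d
    rw [h4, abs_lt]
    constructor <;> linarith
  have hbX : ∀ z ∈ X, 0 < (b z).re ∧ b z ∈ X := by
    intro z hz
    have h1 : |z.re| < 2 * d := hz
    obtain ⟨h2, h3⟩ := abs_lt.mp h1
    have h4 : (b z).re = l * z.re + d := re_aff _ _ _ _
    have h5 : l * z.re < d := by nlinarith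
    have h6 : -d < l * z.re := by nlinarith
    refine ⟨by rw [h4]; linarith, ?_⟩
    change |(b z).re| < 2 * d
    rw [h4, abs_lt]
    constructor <;> linarith
  set E : Set ℍ := X \ (a '' X ∪ b '' X) with hE
  -- iterated images of `E`
  let D : ℕ → Set ℍ := fun n => Nat.rec E (fun _ S => a '' S) n
  have hDsucc : ∀ n, D (n + 1) = a '' D n := fun n => rfl
  set C : Set ℍ := ⋃ n, D n with hC
  have hDX : ∀ n, D n ⊆ X := by
    intro n
    induction n with
    | zero => exact sdiff_subset
    | succ n ih =>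
      rw [hDsucc]
      rintro _ ⟨z, hz, rfl⟩
      exact (haX z (ih hz)).2
  have hCX : C ⊆ X := iUnion_subset hDX
  have hCb : ∀ z ∈ X, b z ∉ C := by
    intro z hz hmem
    obtain ⟨n, hn⟩ := mem_iUnion.mp hmem
    cases n with
    | zero => exact hn.2 (Or.inr ⟨z, hz, rfl⟩)
    | succ n =>
      rw [hDsucc] at hn
      obtain ⟨w, hw, hwz⟩ := hn
      have h1 := (haX w (hDX n hw)).1
      rw [hwz] at h1
      exact absurd h1 (not_lt.mpr (hbX z hz).1.le)
  have hCa : ∀ z ∈ X, a z ∈ C → z ∈ C := by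
    intro z hz hmem
    obtain ⟨n, hn⟩ := mem_iUnion.mp hmem
    cases n with
    | zero => exact absurd (Or.inl ⟨z, hz, rfl⟩) hn.2
    | succ n =>
      rw [hDsucc] at hn
      obtain ⟨w, hw, hwz⟩ := hn
      rw [← a.injective hwz]
      exact mem_iUnion.mpr ⟨n, hw⟩
  have hCa' : ∀ z ∈ C, a z ∈ C := by
    intro z hz
    obtain ⟨n, hn⟩ := mem_iUnion.mp hz
    exact mem_iUnion.mpr ⟨n + 1, by rw [hDsucc]; exact ⟨z, hn, rfl⟩⟩
  have hEC : E ⊆ C := fun z hz => mem_iUnion.mpr ⟨0, hz⟩
  have hIE : UpperHalfPlane.I ∈ E := by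
    refine ⟨hIX, ?_⟩
    rintro (⟨z, hz, h⟩ | ⟨z, hz, h⟩)
    · have := (haX z hz).1
      rw [h, I_re] at this
      exact lt_irrefl _ this
    · have := (hbX z hz).1
      rw [h, I_re] at this
      exact lt_irrefl _ this
  -- measurability
  have hmX : MeasurableSet X := hXopen.measurableSet
  have hma : ∀ S, MeasurableSet S → MeasurableSet (a '' S) := fun S hS =>
    a.toHomeomorph.measurableEmbedding.measurableSet_image.mpr hS
  have hmb : ∀ S, MeasurableSet S → MeasurableSet (b '' S) := fun S hS =>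
    b.toHomeomorph.measurableEmbedding.measurableSet_image.mpr hS
  have hmE : MeasurableSet E := hmX.diff ((hma X hmX).union (hmb X hmX))
  have hmD : ∀ n, MeasurableSet (D n) := by
    intro n
    induction n with
    | zero => exact hmE
    | succ n ih => exact hma _ ih
  have hmC : MeasurableSet C := MeasurableSet.iUnion hmD
  -- the paradoxical decomposition
  have hpar : MeasurableParadox X 2 1 ![IsometryEquiv.refl ℍ, a] ![b] ![C, X \ C] ![X] := by
    refine ⟨by norm_num, by norm_num, ⟨?_, ?_, ?_⟩, ⟨?_, ?_, ?_⟩, ?_, ?_, ⟨?_, ?_, ?_⟩⟩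
    · intro i
      fin_cases i
      · exact ⟨_, hEC hIE⟩
      · exact ⟨b UpperHalfPlane.I, (hbX _ hIX).2, hCb _ hIX⟩
    · intro i j hij
      fin_cases i <;> fin_cases j
      · exact absurd rfl hij
      · exact disjoint_sdiff_right
      · exact disjoint_sdiff_left
      · exact absurd rfl hij
    · ext z
      simp only [mem_iUnion, Fin.exists_fin_two]
      constructor
      · rintro (h | h)
        · exact hCX h
        · exact h.1
      · intro h
        by_cases hz : z ∈ C
        · exact Or.inl hz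
        · exact Or.inr ⟨h, hz⟩
    · intro j
      fin_cases j
      exact ⟨_, hIX⟩
    · intro i j hij
      exact absurd (Subsingleton.elim i j) hij
    · ext z
      simp
    · intro i
      fin_cases i
      · exact hmC.nullMeasurableSet
      · exact (hmX.diff hmC).nullMeasurableSet
    · intro j
      fin_cases j
      exact hmX.nullMeasurableSet
    · rintro (i | j)
      · fin_cases i
        · exact ⟨_, _, hEC hIE, rfl⟩
        · exact ⟨_, b UpperHalfPlane.I, ⟨(hbX _ hIX).2, hCb _ hIX⟩, rfl⟩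
      · fin_cases j
        exact ⟨_, _, hIX, rfl⟩
    · have h01 : Disjoint ((IsometryEquiv.refl ℍ) '' C) (a '' (X \ C)) := by
        rw [Set.disjoint_left]
        rintro _ ⟨z, hz, rfl⟩ ⟨w, hw, hwz⟩
        have hz' : a w ∈ C := by rw [hwz]; exact hz
        exact hw.2 (hCa w hw.1 hz')
      have h02 : Disjoint ((IsometryEquiv.refl ℍ) '' C) (b '' X) := by
        rw [Set.disjoint_left]
        rintro _ ⟨z, hz, rfl⟩ ⟨w, hw, hwz⟩
        have hz' : b w ∈ C := by rw [hwz]; exact hz
        exact hCb w hw hz'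
      have h12 : Disjoint (a '' (X \ C)) (b '' X) := by
        rw [Set.disjoint_left]
        rintro _ ⟨z, hz, rfl⟩ ⟨w, hw, hwz⟩
        have h1 := (haX z hz.1).1
        have h2 := (hbX w hw).1
        rw [hwz] at h2
        linarith
      rintro (i | i) (j | j) hij
      · fin_cases i <;> fin_cases j
        · exact absurd rfl hij
        · exact h01
        · exact h01.symm
        · exact absurd rfl hij
      · fin_cases i <;> fin_cases j
        · exact h02
        · exact h12
      · fin_cases i <;> fin_cases j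
        · exact h02.symm
        · exact h12.symm
      · exact absurd (congrArg Sum.inr (Subsingleton.elim i j)) hij
    · ext z
      constructor
      · intro hz
        obtain ⟨i | j, hij⟩ := mem_iUnion.mp hz
        · fin_cases i
          · obtain ⟨w, hw, rfl⟩ := hij
            exact hCX hw
          · obtain ⟨w, hw, rfl⟩ := hij
            exact (haX w hw.1).2
        · fin_cases j
          obtain ⟨w, hw, rfl⟩ := hij
          exact (hbX w hw).2
      · intro hz
        by_cases hzC : z ∈ C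
        · exact mem_iUnion.mpr ⟨Sum.inl 0, z, hzC, rfl⟩
        · have hzE : z ∉ E := fun h => hzC (hEC h)
          have h1 : z ∈ a '' X ∪ b '' X := by
            by_contra hcon
            exact hzE ⟨hz, hcon⟩
          rcases h1 with ⟨w, hw, rfl⟩ | ⟨w, hw, rfl⟩
          · refine mem_iUnion.mpr ⟨Sum.inl 1, w, ⟨hw, fun h => hzC (hCa' w h)⟩, rfl⟩
          · exact mem_iUnion.mpr ⟨Sum.inr 0, w, hw, rfl⟩
  rcases hstar X hmX.nullMeasurableSet 2 1 _ _ _ _ hpar with h | h
  · exact volume_ne_zero hXopen ⟨_, hIX⟩ h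
  · rcases h UpperHalfPlane.I with ⟨i, hi⟩ | ⟨j, hj⟩
    · fin_cases i
      · have h1 : c ≤ dist UpperHalfPlane.I UpperHalfPlane.I := hi
        rw [dist_self] at h1
        linarith
      · have h1 : c ≤ dist UpperHalfPlane.I (a UpperHalfPlane.I) := hi
        exact absurd (hdist (-d) (by ring)) (not_lt.mpr h1)
    · fin_cases j
      have h1 : c ≤ dist UpperHalfPlane.I (b UpperHalfPlane.I) := hj
      exact absurd (hdist d rfl) (not_lt.mpr h1)

end Pool.Agent.Results.MP_9ed947_gt.NoLargerConstant
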